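import Pool.Agent.H51.Hfc.Final

/-!
# Consistency of an `HFC_w` space which is not dually discrete

All definitions used by the statement are in `Pool/Agent/H90/Frc/Stmt.lean` (first-order formulas of
set theory, satisfaction, models of ZFC, basic vocabulary) and `Pool/Agent/H51/Hfc/Stmt.lean` (the
statement `HfcStatement` about a structure `(M, E)` all of whose quantifiers range over `M`).

The model is a countable generic extension of the universe of small sets (names in `Type 1` over a
partial order in `Type`) by the partial order of finite partial functions from `κ × κ` to `2`, where
`κ` is the continuum.
-/

set_option autoImplicit false

namespace Pool.Agent.H51.Kept.ModelNotDuallyDiscrete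

open Pool.Agent.H90.Frc Pool.Agent.H51.Hfc

/-- There is a sentence `s` of the language of set theory which says, in every structure, that for
some uncountable cardinal `λ` there is an `HFC_w` subspace of `2^λ` which is not dually discrete, and
this sentence holds in some model of ZFC. -/
theorem result : ∃ s : Fml 0,
    (∀ (M : Type) (E : M → M → Prop), Sat E s Fin.elim0 ↔ HfcStatement E) ∧
    ∃ (M : Type) (E : M → M → Prop), ZFC E ∧ Sat E s Fin.elim0 := by
  obtain ⟨s, hs⟩ := dfn_hfcStatement (n := 0)
  obtain ⟨M, E, hz, hE⟩ := exists_model_hfc
  exact ⟨s, fun M E => hs M E _, M, E, hz, (hs M E _).2 hE⟩

end Pool.Agent.H51.Kept.ModelNotDuallyDiscrete

/-
Moved out of Results when MP_63e8ca_gt.Independent (which contains it) was handed in.  The claim file was: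

Proves: There is a first-order sentence s of set theory that in every structure (M,E) expresses HfcStatement: for some uncountable cardinal l there is an HFC_w subspace X of 2^l which is not dually discrete; and there are a type M and a relation E with (M,E) a model of ZFC satisfying s.
Definitions: Fml n = formulas in {membership, =} with n free variables; Sat = Tarski satisfaction; ZFC E = extensionality, foundation, pairing, union, power set, infinity, separation and replacement schemes, choice. Inside (M,E) a point of 2^l is a subset of l; IsHFCw: for each n in omega each uncountable family A of pairwise disjoint n-element subsets F of l (n enumerates F increasingly) has a countable B such that for each b in 2^n only countably many points of X are in no [F*b], F in B. DuallyDiscrete: every neighbourhood assignment U on X (U_x open in X: with y it contains the points of X agreeing with y on a finite set) has a discrete D in X with the U_d, d in D, covering X.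
Relation: Negative answer to Q1 in a model of ZFC, with no hypothesis (the hand-in NotDuallyDiscrete assumes CH and neither implies the other): ZFC does not prove that every HFC_w space is dually discrete. The model adds Cohen reals; the space has size continuum. Not a counterexample in every model of ZFC; to that extent claimed as a partial answer.
-/
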